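import Pool.Agent.Y571.NC.Ent

/-!
# Project UB: lower bound for the entropic time, statements of the parts
-/

set_option autoImplicit false

open Filter Topology
open Pool.Agent.H632R3.RCG

namespace Pool.Agent.Y571.UB

/-- Upper bound for the Poisson entropy. -/
def S_ENT : Prop := ∀ s : ℝ, 0 < s → poissonEntropy s ≤ s - s * Real.log s + s ^ 2

/-- Lower bound for the entropic time. -/
def S_T0 : Prop :=
  S_ENT → ∀ (N k : ℕ → ℕ) (ε : ℝ), 0 < ε → ε < 1 →
    Tendsto (fun j => Real.log (N j)) atTop atTop →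
    Tendsto (fun j => (k j : ℝ) / Real.log (N j)) atTop atTop →
    ∀ᶠ j in atTop, (1 - ε) * (Real.log (N j) / Real.log (k j / Real.log (N j))) ≤ t0 (k j) (N j)

end Pool.Agent.Y571.UB
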