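import Pool.Agent.Y571.UB.Cut
import Pool.Agent.Y571.UB.Stm2

/-!
# Project UB: when is `t_*` asymptotic to `log |G| / log (k / log |G|)`?
-/

set_option autoImplicit false

open Finset Filter Topology
open Pool.Agent.H632R3.RCG
open Pool.Agent.Y571.NC (tEnt)

namespace Pool.Agent.Y571.UB

variable (G : ℕ → Type) [∀ j, Group (G j)] [∀ j, Fintype (G j)] (k : ℕ → ℕ)

theorem t0_mono {k M N : ℕ} (hM : 1 ≤ M) (hMN : M ≤ N) (hk : Real.log N ≤ k) :
    t0 k M ≤ t0 k N := by
  have hM' : (0 : ℝ) < M := by exact_mod_cast hM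
  have hl : Real.log M ≤ Real.log N := Real.log_le_log hM' (by exact_mod_cast hMN)
  refine csInf_le_csInf ⟨0, fun t ht => ht.1⟩ ?_ (fun t ht => ⟨ht.1, hl.trans ht.2⟩)
  have hN0 : 0 ≤ Real.log N := Real.log_natCast_nonneg _
  refine ⟨Real.log N, hN0, ?_⟩
  rcases Nat.eq_zero_or_pos k with h | h
  · subst h
    simp only [Nat.cast_zero, zero_mul] at hk ⊢
    exact hk
  · have hk0 : (0 : ℝ) < k := by exact_mod_cast h
    have h1 := min_le_entropy (s := Real.log N / k) (by positivity)
    have h2 : Real.log N / k ≤ 1 := by rw [div_le_one hk0]; exact hk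
    rw [min_eq_left h2] at h1
    calc Real.log N = k * (Real.log N / k) := by field_simp
      _ ≤ _ := mul_le_mul_of_nonneg_left h1 hk0.le

theorem ab_le (j : ℕ) : 1 ≤ Nat.card (Abelianization (G j)) ∧
    Nat.card (Abelianization (G j)) ≤ Nat.card (G j) := by
  have hf : Finite (Abelianization (G j)) :=
    Finite.of_surjective _ (QuotientGroup.mk_surjective)
  exact ⟨Nat.card_pos, Nat.card_le_card_of_surjective _ (QuotientGroup.mk_surjective)⟩

theorem tStar_le_tEnt (hn : Tendsto (fun j => Nat.card (G j)) atTop atTop)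
    (hk : Tendsto (fun j => (k j : ℝ) / Real.log (Nat.card (G j))) atTop atTop) :
    ∀ᶠ j in atTop, tStar (G j) (k j) ≤ tEnt (Nat.card (G j)) (k j) := by
  have hell : Tendsto (fun j => Real.log (Nat.card (G j))) atTop atTop :=
    Real.tendsto_log_atTop.comp (tendsto_natCast_atTop_atTop.comp hn)
  have hlκ : Tendsto (fun j => Real.log (k j / Real.log (Nat.card (G j)))) atTop atTop :=
    Real.tendsto_log_atTop.comp hk
  filter_upwards [hell.eventually_ge_atTop 1, hlκ.eventually_ge_atTop 1,
    hk.eventually_ge_atTop 1] with j h1 h2 h3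
  have hG : 0 < Real.log (Nat.card (G j)) := by linarith
  have hl : 0 < Real.log (k j / Real.log (Nat.card (G j))) := by linarith
  have hkL : Real.log (Nat.card (G j)) ≤ k j := by
    rw [le_div_iff₀ hG] at h3; linarith
  have hk0 : (0 : ℝ) < k j := by linarith
  have h4 : 1 ≤ k j := by exact_mod_cast (show (0 : ℝ) < k j from hk0)
  have hτ0 : 0 < tEnt (Nat.card (G j)) (k j) := div_pos hG hl
  have hτκ : tEnt (Nat.card (G j)) (k j) * Real.log (k j / Real.log (Nat.card (G j))) =
      Real.log (Nat.card (G j)) := div_mul_cancel₀ _ hl.ne'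
  have e1 : Real.log (k j / Real.log (Nat.card (G j))) ≤
      Real.log (k j / tEnt (Nat.card (G j)) (k j)) :=
    Real.log_le_log (by linarith)
      (div_le_div_of_nonneg_left hk0.le hτ0 (div_le_self hG.le h2))
  have h5 : t0 (k j) (Nat.card (G j)) ≤ tEnt (Nat.card (G j)) (k j) := by
    refine Pool.Agent.Y571.NC.t0_le_of hτ0 h4 ?_
    calc Real.log (Nat.card (G j))
        = tEnt (Nat.card (G j)) (k j) * Real.log (k j / Real.log (Nat.card (G j))) := hτκ.symm
      _ ≤ tEnt (Nat.card (G j)) (k j) *
          (1 + Real.log (k j / tEnt (Nat.card (G j)) (k j))) :=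
        mul_le_mul_of_nonneg_left (by linarith) hτ0.le
  refine max_le ((t0_mono (ab_le G j).1 (ab_le G j).2 hkL).trans h5) ?_
  unfold Real.logb tEnt
  refine div_le_div_of_nonneg_left hG.le hl ?_
  exact Real.log_le_log (by linarith) (div_le_self hk0.le h1)

/-- `t_*` asymptotic to `log |G| / log (k / log |G|)` if `|A| = |G| ^ (1 - o(1))`. -/
theorem ratio_of (hT : S_T0) (hE : S_ENT)
    (hn : Tendsto (fun j => Nat.card (G j)) atTop atTop)
    (hk : Tendsto (fun j => (k j : ℝ) / Real.log (Nat.card (G j))) atTop atTop)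
    (hA : Tendsto (fun j => Real.log (Nat.card (Abelianization (G j))) /
      Real.log (Nat.card (G j))) atTop (𝓝 1)) :
    Tendsto (fun j => tStar (G j) (k j) / tEnt (Nat.card (G j)) (k j)) atTop (𝓝 1) := by
  have hell : Tendsto (fun j => Real.log (Nat.card (G j))) atTop atTop :=
    Real.tendsto_log_atTop.comp (tendsto_natCast_atTop_atTop.comp hn)
  have hlκ : Tendsto (fun j => Real.log (k j / Real.log (Nat.card (G j)))) atTop atTop :=
    Real.tendsto_log_atTop.comp hk
  have hA2 : ∀ᶠ j in atTop, 1 / 2 * Real.log (Nat.card (G j)) ≤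
      Real.log (Nat.card (Abelianization (G j))) := by
    filter_upwards [hA.eventually_const_le (show (1 / 2 : ℝ) < 1 by norm_num),
      hell.eventually_ge_atTop 1] with j h1 h2
    rwa [le_div_iff₀ (by linarith)] at h1
  have hAle : ∀ j, Real.log (Nat.card (Abelianization (G j))) ≤ Real.log (Nat.card (G j)) :=
    fun j => Real.log_le_log (by exact_mod_cast (ab_le G j).1) (by exact_mod_cast (ab_le G j).2)
  have hNA : Tendsto (fun j => Real.log (Nat.card (Abelianization (G j)))) atTop atTop :=
    tendsto_atTop_mono' _ hA2 (hell.const_mul_atTop (by norm_num))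
  have hkA : Tendsto (fun j => (k j : ℝ) / Real.log (Nat.card (Abelianization (G j)))) atTop
      atTop := by
    refine tendsto_atTop_mono' _ ?_ hk
    filter_upwards [hNA.eventually_ge_atTop 1] with j h1
    exact div_le_div_of_nonneg_left (Nat.cast_nonneg _) (by linarith) (hAle j)
  rw [Metric.tendsto_nhds]
  intro η hη
  set e := min (η / 4) (1 / 4) with he
  have he0 : 0 < e := lt_min (by linarith) (by norm_num)
  have he1 : e ≤ 1 / 4 := min_le_right _ _
  have he2 : e ≤ η / 4 := min_le_left _ _
  filter_upwards [tStar_le_tEnt G k hn hk, hA2, hell.eventually_ge_atTop 1,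
    hlκ.eventually_ge_atTop (Real.log 2 / e + 1), hk.eventually_ge_atTop 1,
    hT hE (fun j => Nat.card (Abelianization (G j))) k e he0 (by linarith) hNA hkA,
    hA.eventually_const_le (show 1 - e < 1 by linarith)] with j h1 h2 h3 h4 h5 h6 h7
  have hG : 0 < Real.log (Nat.card (G j)) := by linarith
  have hl2 : 0 < Real.log 2 := Real.log_pos (by norm_num)
  have hq : 0 < Real.log 2 / e := by positivity
  have hl : 0 < Real.log (k j / Real.log (Nat.card (G j))) := by linarith
  have hAp : 0 < Real.log (Nat.card (Abelianization (G j))) := by linarith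
  have hτ0 : 0 < tEnt (Nat.card (G j)) (k j) := div_pos hG hl
  have hkL : Real.log (Nat.card (G j)) ≤ k j := by
    rw [le_div_iff₀ hG] at h5; linarith
  have hk0 : (0 : ℝ) < k j := by linarith
  -- the logarithm in the denominator
  have h8 : Real.log (k j / Real.log (Nat.card (Abelianization (G j)))) ≤
      (1 + e) * Real.log (k j / Real.log (Nat.card (G j))) := by
    have h9 : (k j : ℝ) / Real.log (Nat.card (Abelianization (G j))) ≤
        2 * (k j / Real.log (Nat.card (G j))) := by
      rw [div_le_iff₀ hAp]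
      have h10 : (k j : ℝ) = 2 * (k j / Real.log (Nat.card (G j))) *
          (1 / 2 * Real.log (Nat.card (G j))) := by field_simp
      calc (k j : ℝ) = 2 * (k j / Real.log (Nat.card (G j))) *
          (1 / 2 * Real.log (Nat.card (G j))) := h10
        _ ≤ _ := mul_le_mul_of_nonneg_left h2 (by positivity)
    have h11 := Real.log_le_log (by positivity) h9
    rw [Real.log_mul (by norm_num) (by positivity)] at h11
    have h12 : Real.log 2 ≤ e * Real.log (k j / Real.log (Nat.card (G j))) := by
      have h13 : Real.log 2 / e ≤ Real.log (k j / Real.log (Nat.card (G j))) := by linarith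
      rw [div_le_iff₀ he0] at h13
      linarith
    linarith
  have h8p : 0 < Real.log (k j / Real.log (Nat.card (Abelianization (G j)))) := by
    refine lt_of_lt_of_le hl (Real.log_le_log (by positivity) ?_)
    exact div_le_div_of_nonneg_left hk0.le hAp (hAle j)
  have h14 : (1 - e) * Real.log (Nat.card (G j)) ≤
      Real.log (Nat.card (Abelianization (G j))) := by
    rwa [le_div_iff₀ hG] at h7
  have h15 : (1 - e) / (1 + e) * tEnt (Nat.card (G j)) (k j) ≤
      Real.log (Nat.card (Abelianization (G j))) /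
        Real.log (k j / Real.log (Nat.card (Abelianization (G j)))) := by
    unfold tEnt
    rw [div_mul_div_comm]
    exact div_le_div₀ hAp.le h14 h8p h8
  have h16 : (1 - e) * ((1 - e) / (1 + e)) * tEnt (Nat.card (G j)) (k j) ≤
      tStar (G j) (k j) := by
    calc (1 - e) * ((1 - e) / (1 + e)) * tEnt (Nat.card (G j)) (k j)
        = (1 - e) * ((1 - e) / (1 + e) * tEnt (Nat.card (G j)) (k j)) := by ring
      _ ≤ (1 - e) * (Real.log (Nat.card (Abelianization (G j))) /
        Real.log (k j / Real.log (Nat.card (Abelianization (G j))))) :=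
          mul_le_mul_of_nonneg_left h15 (by linarith)
      _ ≤ t0 (k j) (Nat.card (Abelianization (G j))) := h6
      _ ≤ _ := le_max_left _ _
  have h17 : 1 - 3 * e ≤ (1 - e) * ((1 - e) / (1 + e)) := by
    rw [← mul_div_assoc, le_div_iff₀ (by linarith)]
    nlinarith
  have h18 : (1 - 3 * e) * tEnt (Nat.card (G j)) (k j) ≤ tStar (G j) (k j) :=
    (mul_le_mul_of_nonneg_right h17 hτ0.le).trans h16
  rw [Real.dist_eq, abs_lt]
  have h19 : tStar (G j) (k j) / tEnt (Nat.card (G j)) (k j) ≤ 1 := by
    rw [div_le_one hτ0]; exact h1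
  have h20 : 1 - 3 * e ≤ tStar (G j) (k j) / tEnt (Nat.card (G j)) (k j) := by
    rw [le_div_iff₀ hτ0]; exact h18
  constructor <;> linarith

/-- Conversely, `|A| = |G| ^ (1 - o(1))` if `t_*` is asymptotic to this time and
`k ≤ (log |G|) ^ C`. -/
theorem of_ratio {C : ℝ} (hC : 0 < C)
    (hn : Tendsto (fun j => Nat.card (G j)) atTop atTop)
    (hk : Tendsto (fun j => (k j : ℝ) / Real.log (Nat.card (G j))) atTop atTop)
    (hkN : ∀ᶠ j in atTop, (k j : ℝ) ≤ Real.log (Nat.card (G j)) ^ C)
    (hx : ∀ᶠ j in atTop, 0 < tEnt (Nat.card (G j)) (k j))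
    (h : Tendsto (fun j => tStar (G j) (k j) / tEnt (Nat.card (G j)) (k j)) atTop (𝓝 1)) :
    Tendsto (fun j => Real.log (Nat.card (Abelianization (G j))) /
      Real.log (Nat.card (G j))) atTop (𝓝 1) := by
  have hell : Tendsto (fun j => Real.log (Nat.card (G j))) atTop atTop :=
    Real.tendsto_log_atTop.comp (tendsto_natCast_atTop_atTop.comp hn)
  have hAle : ∀ j, Real.log (Nat.card (Abelianization (G j))) ≤ Real.log (Nat.card (G j)) :=
    fun j => Real.log_le_log (by exact_mod_cast (ab_le G j).1) (by exact_mod_cast (ab_le G j).2)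
  by_contra hcon
  rw [Metric.tendsto_nhds] at hcon
  push Not at hcon
  obtain ⟨η, hη, hfr⟩ := hcon
  have hfr2 : ∃ᶠ j in atTop, Real.log (Nat.card (Abelianization (G j))) ≤
      (1 - η) * Real.log (Nat.card (G j)) := by
    refine (hfr.and_eventually (hell.eventually_ge_atTop 1)).mono ?_
    rintro j ⟨h1, h2⟩
    have hG : 0 < Real.log (Nat.card (G j)) := by linarith
    have h3 : Real.log (Nat.card (Abelianization (G j))) / Real.log (Nat.card (G j)) ≤ 1 := by
      rw [div_le_one hG]; exact hAle j
    rw [Real.dist_eq, abs_of_nonpos (by linarith)] at h1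
    rw [← div_le_iff₀ hG]
    linarith
  obtain ⟨φ, hφ, hφ2⟩ := Filter.extraction_of_frequently_atTop hfr2
  have hφt := hφ.tendsto_atTop
  obtain ⟨s, hs0, hs1, hs⟩ := Pool.Agent.Y571.NC.tStar_le (fun i => G (φ i)) (fun i => k (φ i))
    (hn.comp hφt) (hk.comp hφt) hC (hφt.eventually hkN) (show 1 - η < 1 by linarith)
    (Eventually.of_forall hφ2)
  obtain ⟨i, h1, h2, h3⟩ := (((h.comp hφt).eventually_const_lt hs1).and
    ((hφt.eventually hx).and hs)).exists
  simp only [Function.comp_apply] at h1
  rw [lt_div_iff₀ h2] at h1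
  linarith

/-- `t_0 (k, |G|)` is asymptotic to `log |G| / log (k / log |G|)`. -/
theorem t0_ratio (hT : S_T0) (hE : S_ENT)
    (hn : Tendsto (fun j => Nat.card (G j)) atTop atTop)
    (hk : Tendsto (fun j => (k j : ℝ) / Real.log (Nat.card (G j))) atTop atTop) :
    Tendsto (fun j => t0 (k j) (Nat.card (G j)) / tEnt (Nat.card (G j)) (k j)) atTop (𝓝 1) := by
  have hell : Tendsto (fun j => Real.log (Nat.card (G j))) atTop atTop :=
    Real.tendsto_log_atTop.comp (tendsto_natCast_atTop_atTop.comp hn)
  have hlκ : Tendsto (fun j => Real.log (k j / Real.log (Nat.card (G j)))) atTop atTop :=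
    Real.tendsto_log_atTop.comp hk
  rw [Metric.tendsto_nhds]
  intro η hη
  set e := min (η / 4) (1 / 4) with he
  have he0 : 0 < e := lt_min (by linarith) (by norm_num)
  have he1 : e ≤ 1 / 4 := min_le_right _ _
  have he2 : e ≤ η / 4 := min_le_left _ _
  filter_upwards [hell.eventually_ge_atTop 1, hlκ.eventually_ge_atTop 1,
    hk.eventually_ge_atTop 1, hT hE (fun j => Nat.card (G j)) k e he0 (by linarith) hell hk]
    with j h1 h2 h3 h6
  have hG : 0 < Real.log (Nat.card (G j)) := by linarith
  have hl : 0 < Real.log (k j / Real.log (Nat.card (G j))) := by linarith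
  have hkL : Real.log (Nat.card (G j)) ≤ k j := by
    rw [le_div_iff₀ hG] at h3; linarith
  have hk0 : (0 : ℝ) < k j := by linarith
  have h4 : 1 ≤ k j := by exact_mod_cast (show (0 : ℝ) < k j from hk0)
  have hτ0 : 0 < tEnt (Nat.card (G j)) (k j) := div_pos hG hl
  have hτκ : tEnt (Nat.card (G j)) (k j) * Real.log (k j / Real.log (Nat.card (G j))) =
      Real.log (Nat.card (G j)) := div_mul_cancel₀ _ hl.ne'
  have e1 : Real.log (k j / Real.log (Nat.card (G j))) ≤
      Real.log (k j / tEnt (Nat.card (G j)) (k j)) :=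
    Real.log_le_log (by linarith)
      (div_le_div_of_nonneg_left hk0.le hτ0 (div_le_self hG.le h2))
  have h5 : t0 (k j) (Nat.card (G j)) ≤ tEnt (Nat.card (G j)) (k j) := by
    refine Pool.Agent.Y571.NC.t0_le_of hτ0 h4 ?_
    calc Real.log (Nat.card (G j))
        = tEnt (Nat.card (G j)) (k j) * Real.log (k j / Real.log (Nat.card (G j))) := hτκ.symm
      _ ≤ tEnt (Nat.card (G j)) (k j) *
          (1 + Real.log (k j / tEnt (Nat.card (G j)) (k j))) :=
        mul_le_mul_of_nonneg_left (by linarith) hτ0.le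
  have h18 : (1 - e) * tEnt (Nat.card (G j)) (k j) ≤ t0 (k j) (Nat.card (G j)) := h6
  rw [Real.dist_eq, abs_lt]
  have h19 : t0 (k j) (Nat.card (G j)) / tEnt (Nat.card (G j)) (k j) ≤ 1 := by
    rw [div_le_one hτ0]; exact h5
  have h20 : 1 - e ≤ t0 (k j) (Nat.card (G j)) / tEnt (Nat.card (G j)) (k j) := by
    rw [le_div_iff₀ hτ0]; exact h18
  constructor <;> linarith

end Pool.Agent.Y571.UB
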