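import Pool.Agent.Y571.UB.Upper

/-!
# Project UB: characterization of the cutoff times
-/

set_option autoImplicit false

open Finset Filter Topology
open Pool.Agent.H632R3.RCG
open Pool.Agent.Y571.NC (tEnt)

namespace Pool.Agent.Y571.UB

section prob

variable (G : Type) [Group G] [Fintype G] (k : ℕ)

theorem card_pos' : (0 : ℝ) < (Nat.card (Fin k → G) : ℝ) := by
  exact_mod_cast (Nat.card_pos : 0 < Nat.card (Fin k → G))

theorem prob_of_forall (p : (Fin k → G) → Prop) (h : ∀ Z, p Z) : prob G k p = 1 := by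
  have h1 : Nat.card {Z : Fin k → G // p Z} = Nat.card (Fin k → G) :=
    Nat.card_congr (Equiv.subtypeUnivEquiv h)
  unfold prob
  rw [h1, div_self (card_pos' G k).ne']

theorem prob_of_forall_not (p : (Fin k → G) → Prop) (h : ∀ Z, ¬ p Z) : prob G k p = 0 := by
  have : IsEmpty {Z : Fin k → G // p Z} := ⟨fun Z => h Z.1 Z.2⟩
  unfold prob
  rw [Nat.card_of_isEmpty]
  simp

theorem prob_add_le (p q : (Fin k → G) → Prop) (h : ∀ Z, p Z → ¬ q Z) :
    prob G k p + prob G k q ≤ 1 := by
  classical
  unfold prob
  rw [← add_div, div_le_one (card_pos' G k)]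
  rw [Nat.card_eq_fintype_card, Nat.card_eq_fintype_card, Nat.card_eq_fintype_card,
    Fintype.card_subtype, Fintype.card_subtype]
  have hd : Disjoint (univ.filter p) (univ.filter q) := by
    rw [Finset.disjoint_filter]
    exact fun Z _ h1 => h Z h1
  have h1 := Finset.card_union_of_disjoint hd
  have h2 := Finset.card_le_univ (univ.filter p ∪ univ.filter q)
  rw [h1] at h2
  exact_mod_cast h2

theorem prob_le_one (p : (Fin k → G) → Prop) : prob G k p ≤ 1 := by
  have h1 := prob_add_le G k p (fun _ => False) (fun _ _ h => h)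
  rw [prob_of_forall_not G k (fun _ => False) (fun _ h => h)] at h1
  linarith

end prob

variable (G : ℕ → Type) [∀ j, Group (G j)] [∀ j, Fintype (G j)] (k : ℕ → ℕ) (x : ℕ → ℝ)

/-- If the distance is uniformly close to one before the time `x` and small whp after `x`, the
times of cutoff are exactly those asymptotic to `x`. -/
theorem cutoff_iff (hx : ∀ᶠ j in atTop, 0 < x j)
    (hU : ∀ ε δ δ' : ℝ, 0 < ε → ε < 1 → 0 < δ → 0 < δ' → ∀ᶠ j in atTop, ∀ t : ℝ,
      (1 + ε) * x j ≤ t → 1 - δ' ≤ prob (G j) (k j) fun Z => tvDist Z t ≤ δ)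
    (hL : ∀ s : ℝ, s < 1 → ∀ δ : ℝ, 0 < δ → ∀ᶠ j in atTop, ∀ (Z : Fin (k j) → G j) (t : ℝ),
      0 ≤ t → t ≤ s * x j → 1 - δ ≤ tvDist Z t)
    (u : ℕ → ℝ) (hu : ∀ᶠ j in atTop, 0 ≤ u j) :
    CutoffWhpAt G k u ↔ Tendsto (fun j => u j / x j) atTop (𝓝 1) := by
  constructor
  · intro hc
    rw [Metric.tendsto_nhds]
    intro η hη
    set e := min (η / 2) (1 / 2) with he
    have he0 : 0 < e := lt_min (by linarith) (by norm_num)
    have he1 : e ≤ 1 / 2 := min_le_right _ _
    have he2 : e ≤ η / 2 := min_le_left _ _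
    have he3 : e < η := by linarith
    obtain ⟨hc1, hc2⟩ := hc (e / 4) (by linarith) (by linarith) (1 / 4) (by norm_num)
    filter_upwards [hx, hc1.eventually_const_lt (show (1 / 2 : ℝ) < 1 by norm_num),
      hc2.eventually_const_lt (show (1 / 2 : ℝ) < 1 by norm_num),
      hU (e / 2) (1 / 4) (1 / 4) (by linarith) (by linarith) (by norm_num) (by norm_num),
      hL (1 - e / 2) (by linarith) (1 / 4) (by norm_num), hu] with j h0 h1 h2 h3 h4 huj
    have h5 : (1 - e) * x j ≤ u j := by
      by_contra h
      push Not at h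
      have h6 : (1 + e / 4) * u j ≤ (1 - e / 2) * x j := by
        have h8 : (1 + e / 4) * u j ≤ (1 + e / 4) * ((1 - e) * x j) :=
          mul_le_mul_of_nonneg_left h.le (by linarith)
        have h9 : 0 ≤ e * x j := by positivity
        have h10 : 0 ≤ e * (e * x j) := by positivity
        have h11 : (1 + e / 4) * ((1 - e) * x j) =
            x j - 3 / 4 * (e * x j) - 1 / 4 * (e * (e * x j)) := by ring
        have h12 : (1 - e / 2) * x j = x j - 1 / 2 * (e * x j) := by ring
        rw [h12]
        linarith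
      have h7 : prob (G j) (k j) (fun Z => tvDist Z ((1 + e / 4) * u j) ≤ 1 / 4) = 0 := by
        refine prob_of_forall_not _ _ _ fun Z h8 => ?_
        have h9 := h4 Z ((1 + e / 4) * u j) (mul_nonneg (by linarith) huj) h6
        linarith
      rw [h7] at h1
      linarith
    have h6 : u j ≤ (1 + e) * x j := by
      by_contra h
      push Not at h
      have h7 : (1 + e / 2) * x j ≤ (1 - e / 4) * u j := by
        have h8 : (1 - e / 4) * ((1 + e) * x j) ≤ (1 - e / 4) * u j :=
          mul_le_mul_of_nonneg_left h.le (by linarith)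
        have h9 : 0 ≤ e * x j := by positivity
        nlinarith
      have h8 := h3 _ h7
      have h9 := prob_add_le (G j) (k j)
        (fun Z => tvDist Z ((1 - e / 4) * u j) ≤ 1 / 4)
        (fun Z => 1 - 1 / 4 ≤ tvDist Z ((1 - e / 4) * u j)) (fun Z h10 h11 => by linarith)
      linarith
    rw [Real.dist_eq, abs_lt]
    have h7 : u j / x j ≤ 1 + e := by rw [div_le_iff₀ h0]; exact h6
    have h8 : 1 - e ≤ u j / x j := by rw [le_div_iff₀ h0]; exact h5
    constructor <;> linarith
  · intro hc ε hε hε1 δ hδ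
    constructor
    · rw [Metric.tendsto_nhds]
      intro η hη
      have h1 : (1 + ε / 2) / (1 + ε) < 1 := by
        rw [div_lt_one (by positivity)]; linarith
      filter_upwards [hx, hc.eventually_const_lt h1,
        hU (ε / 2) δ (η / 2) (by linarith) (by linarith) hδ (by linarith)] with j h0 h2 h3
      rw [div_lt_div_iff₀ (by positivity) h0] at h2
      have h4 := h3 ((1 + ε) * u j) (by linarith)
      have h5 := prob_le_one (G j) (k j) (fun Z => tvDist Z ((1 + ε) * u j) ≤ δ)
      rw [Real.dist_eq, abs_lt]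
      constructor <;> linarith
    · have h1 : 1 < (1 - ε / 2) / (1 - ε) := by
        rw [one_lt_div (by linarith)]; linarith
      refine tendsto_const_nhds.congr' ?_
      filter_upwards [hx, hc.eventually_lt_const h1, hL (1 - ε / 2) (by linarith) δ hδ, hu]
        with j h0 h2 h3 huj
      rw [div_lt_div_iff₀ h0 (by linarith)] at h2
      refine (prob_of_forall _ _ _ fun Z => ?_).symm
      exact h3 Z _ (mul_nonneg (by linarith) huj) (by linarith)

end Pool.Agent.Y571.UB
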