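import Pool.Agent.Y571.UB.Stm

/-!
# Project UB: mean of the distance over the choice of the generators
-/

set_option autoImplicit false

open Finset Filter Topology
open Pool.Agent.H632R3.RCG

namespace Pool.Agent.Y571.UB

/-- Mean of the total variation distance over the choice of the generators. -/
theorem mean_le (hSM : S_SM) (hCON : S_CON) (hCOUNT : S_COUNT) (G : Type) [Group G] [Fintype G]
    (n k : ℕ) (hk : 0 < k) (hn : 1 ≤ n) (t : ℝ) (ht : 0 ≤ t) :
    ∑ Z : Fin k → G, tvDist Z t ≤ (Fintype.card G : ℝ) ^ k * (∑ T ∈ range n, pois t T +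
      (1 / 2) * Real.sqrt ((Fintype.card G : ℝ) * (Real.exp 1 * n / k) ^ n)) := by
  have hN : (0 : ℝ) < Fintype.card G := by exact_mod_cast Fintype.card_pos
  have hk' : (0 : ℝ) < k := by exact_mod_cast hk
  set S := ∑ Z : Fin k → G, ∑ g : G, |stepLaw Z n g - 1 / (Fintype.card G : ℝ)| with hS
  have hcard : (Fintype.card (Fin k → G) : ℝ) = (Fintype.card G : ℝ) ^ k := by
    rw [Fintype.card_fun, Fintype.card_fin]; push_cast; ring
  have h1 : ∑ Z : Fin k → G, tvDist Z t ≤
      (Fintype.card G : ℝ) ^ k * ∑ T ∈ range n, pois t T + (1 / 2) * S := by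
    calc ∑ Z : Fin k → G, tvDist Z t ≤ ∑ Z : Fin k → G, (∑ T ∈ range n, pois t T +
          (1 / 2) * ∑ g : G, |stepLaw Z n g - 1 / (Fintype.card G : ℝ)|) :=
          Finset.sum_le_sum fun Z _ => hCON G n k Z t hk ht
      _ = _ := by
          rw [Finset.sum_add_distrib, Finset.sum_const, Finset.card_univ, nsmul_eq_mul, hcard,
            ← Finset.mul_sum]
  have h2 : S ^ 2 ≤ ((Fintype.card G : ℝ) ^ k * Fintype.card G) *
      ∑ Z : Fin k → G, ∑ g : G, (stepLaw Z n g - 1 / (Fintype.card G : ℝ)) ^ 2 := by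
    have h := sq_sum_le_card_mul_sum_sq (s := (univ : Finset ((Fin k → G) × G)))
      (f := fun p => |stepLaw p.1 n p.2 - 1 / (Fintype.card G : ℝ)|)
    rw [Fintype.sum_prod_type, Fintype.sum_prod_type, Finset.card_univ, Fintype.card_prod] at h
    simp only [sq_abs] at h
    push_cast at h
    rw [← hcard]
    exact_mod_cast h
  have h3 := hSM G n k hk
  have h4 := hCOUNT n k hn
  have h5 : (bad n k : ℝ) / (k : ℝ) ^ (2 * n) ≤ (Real.exp 1 * n / k) ^ n := by
    rw [div_pow, div_le_div_iff₀ (by positivity) (by positivity)]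
    calc (bad n k : ℝ) * (k : ℝ) ^ n ≤ (Real.exp 1 * n * k) ^ n * (k : ℝ) ^ n :=
          mul_le_mul_of_nonneg_right h4 (by positivity)
      _ = (Real.exp 1 * n) ^ n * (k : ℝ) ^ (2 * n) := by rw [mul_pow, two_mul, pow_add]; ring
  have h6 : S ^ 2 ≤ ((Fintype.card G : ℝ) ^ k) ^ 2 *
      ((Fintype.card G : ℝ) * (Real.exp 1 * n / k) ^ n) := by
    calc S ^ 2 ≤ ((Fintype.card G : ℝ) ^ k * Fintype.card G) *
          ((Fintype.card G : ℝ) ^ k * (Real.exp 1 * n / k) ^ n) := by
          refine h2.trans (mul_le_mul_of_nonneg_left ?_ (by positivity))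
          exact h3.trans (mul_le_mul_of_nonneg_left h5 (by positivity))
      _ = _ := by ring
  have h7 : S ≤ (Fintype.card G : ℝ) ^ k *
      Real.sqrt ((Fintype.card G : ℝ) * (Real.exp 1 * n / k) ^ n) := by
    have h8 : 0 ≤ (Fintype.card G : ℝ) * (Real.exp 1 * n / k) ^ n := by positivity
    have hS0 : 0 ≤ S := Finset.sum_nonneg fun _ _ => Finset.sum_nonneg fun _ _ => abs_nonneg _
    refine (sq_le_sq₀ hS0 (by positivity)).1 ?_
    rw [mul_pow, Real.sq_sqrt h8]
    exact h6
  nlinarith [h1, h7]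

/-- Markov's inequality. -/
theorem prob_ge (G : Type) [Group G] [Fintype G] (k : ℕ) (t : ℝ) {m δ : ℝ}
    (hδ : 0 < δ) (hm : ∑ Z : Fin k → G, tvDist Z t ≤ (Fintype.card G : ℝ) ^ k * m) :
    1 - m / δ ≤ prob G k fun Z => tvDist Z t ≤ δ := by
  classical
  have hN : (0 : ℝ) < Fintype.card G := by exact_mod_cast Fintype.card_pos
  have hcard : (Nat.card (Fin k → G) : ℝ) = (Fintype.card G : ℝ) ^ k := by
    rw [Nat.card_eq_fintype_card, Fintype.card_fun, Fintype.card_fin]; push_cast; ring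
  unfold prob
  rw [hcard, Nat.card_eq_fintype_card, Fintype.card_subtype,
    le_div_iff₀ (by positivity)]
  have h1 : ((univ.filter fun Z : Fin k → G => tvDist Z t ≤ δ).card : ℝ) +
      ((univ.filter fun Z : Fin k → G => ¬ tvDist Z t ≤ δ).card : ℝ) =
        (Fintype.card G : ℝ) ^ k := by
    rw [← hcard, Nat.card_eq_fintype_card, ← Finset.card_univ]
    exact_mod_cast Finset.card_filter_add_card_filter_not _
  have h0 : ∀ Z : Fin k → G, 0 ≤ tvDist Z t := fun Z => by
    unfold tvDist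
    exact mul_nonneg (by norm_num) (Finset.sum_nonneg fun _ _ => abs_nonneg _)
  have h2 : ((univ.filter fun Z : Fin k → G => ¬ tvDist Z t ≤ δ).card : ℝ) * δ ≤
      ∑ Z : Fin k → G, tvDist Z t := by
    calc ((univ.filter fun Z : Fin k → G => ¬ tvDist Z t ≤ δ).card : ℝ) * δ =
          ∑ _Z ∈ univ.filter (fun Z : Fin k → G => ¬ tvDist Z t ≤ δ), δ := by
          rw [Finset.sum_const, nsmul_eq_mul]
      _ ≤ ∑ Z ∈ univ.filter (fun Z : Fin k → G => ¬ tvDist Z t ≤ δ), tvDist Z t := by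
          refine Finset.sum_le_sum fun Z hZ => ?_
          rw [Finset.mem_filter] at hZ
          exact (not_le.1 hZ.2).le
      _ ≤ _ := Finset.sum_le_sum_of_subset_of_nonneg (Finset.filter_subset _ _)
          fun Z _ _ => h0 Z
  have h3 : ((univ.filter fun Z : Fin k → G => ¬ tvDist Z t ≤ δ).card : ℝ) ≤
      (Fintype.card G : ℝ) ^ k * m / δ := by
    rw [le_div_iff₀ hδ]
    exact h2.trans hm
  have h4 : (1 - m / δ) * (Fintype.card G : ℝ) ^ k =
      (Fintype.card G : ℝ) ^ k - (Fintype.card G : ℝ) ^ k * m / δ := by ring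
  rw [h4]
  linarith

end Pool.Agent.Y571.UB
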