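import Pool.Agent.H632R3.RCGLower

/-!
# Project UB: upper bound for the mixing time of random Cayley graphs, statements of the parts
-/

set_option autoImplicit false

open Finset Filter Topology
open Pool.Agent.H632R3.RCG

namespace Pool.Agent.Y571.UB

/-- The number of pairs of words of length `n` in `k` letters such that no letter occurs exactly
once in the two words together. -/
def bad (n k : ℕ) : ℕ :=
  (univ.filter fun w : (Fin n → Fin k) × (Fin n → Fin k) =>
    ∀ i : Fin k, (univ.filter fun x => w.1 x = i).card + (univ.filter fun x => w.2 x = i).card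
      ≠ 1).card

/-- Counting: the words live on a set of at most `n` letters. -/
def S_COUNT : Prop :=
  ∀ n k : ℕ, 1 ≤ n → (bad n k : ℝ) ≤ (Real.exp 1 * n * k) ^ n

/-- Second moment over all choices of the generators. -/
def S_SM : Prop :=
  ∀ (G : Type) [Group G] [Fintype G] (n k : ℕ), 0 < k →
    ∑ Z : Fin k → G, ∑ g : G, (stepLaw Z n g - 1 / (Fintype.card G : ℝ)) ^ 2 ≤
      (Fintype.card G : ℝ) ^ k * ((bad n k : ℝ) / (k : ℝ) ^ (2 * n))

/-- The distance at time `t` is at most the Poisson tail below `n` plus the distance after exactly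
`n` steps. -/
def S_CON : Prop :=
  ∀ (G : Type) [Group G] [Fintype G] (n k : ℕ) (Z : Fin k → G) (t : ℝ), 0 < k → 0 ≤ t →
    tvDist Z t ≤ ∑ T ∈ range n, pois t T +
      (1 / 2) * ∑ g : G, |stepLaw Z n g - 1 / (Fintype.card G : ℝ)|

/-- Lower tail of the Poisson law. -/
def S_TAIL : Prop :=
  ∀ c : ℝ, 0 < c → c < 1 → ∃ b : ℝ, 0 < b ∧ ∀ (t : ℝ) (n : ℕ), 0 ≤ t → (n : ℝ) ≤ c * t →
    ∑ T ∈ range n, pois t T ≤ Real.exp (-(b * t))

/-- The asymptotic estimate. -/
def S_ASY : Prop :=
  ∀ (L κ : ℕ → ℝ) (ε : ℝ), 0 < ε → ε < 1 → Tendsto κ atTop atTop →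
    Tendsto (fun j => L j / Real.log (κ j)) atTop atTop →
    Tendsto (fun j => Real.exp (L j) *
      (Real.exp 1 * (⌈(1 + ε) * (L j / Real.log (κ j))⌉₊ : ℝ) / (κ j * L j)) ^
        ⌈(1 + ε) * (L j / Real.log (κ j))⌉₊) atTop (𝓝 0)

end Pool.Agent.Y571.UB
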