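import Pool.Agent.Y571.UB.Mean
import Pool.Agent.Y571.NC.Core2
import Pool.Agent.Y484.UB.Count
import Pool.Agent.Y235.UB.SM
import Pool.Agent.Y239.UB.Contr
import Pool.Agent.Y319.UB.Tail
import Pool.Agent.Y813.UB.Asy

/-!
# Project UB: the upper bound for all groups, and the characterization of the cutoff times
-/

set_option autoImplicit false

open Finset Filter Topology
open Pool.Agent.H632R3.RCG
open Pool.Agent.Y571.NC (tEnt)

namespace Pool.Agent.Y571.UB

section

variable (G : ℕ → Type) [∀ j, Group (G j)] [∀ j, Fintype (G j)] (k : ℕ → ℕ)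

theorem tEnt_tendsto
    (hn : Tendsto (fun j => Nat.card (G j)) atTop atTop)
    (hk : Tendsto (fun j => (k j : ℝ) / Real.log (Nat.card (G j))) atTop atTop)
    (hkG : Tendsto (fun j => Real.log (k j) / Real.log (Nat.card (G j))) atTop (𝓝 0)) :
    Tendsto (fun j => tEnt (Nat.card (G j)) (k j)) atTop atTop := by
  have hell : Tendsto (fun j => Real.log (Nat.card (G j))) atTop atTop :=
    Real.tendsto_log_atTop.comp (tendsto_natCast_atTop_atTop.comp hn)
  have hlκ : Tendsto (fun j => Real.log (k j / Real.log (Nat.card (G j)))) atTop atTop :=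
    Real.tendsto_log_atTop.comp hk
  have h1 : Tendsto (fun j => Real.log (k j / Real.log (Nat.card (G j))) /
      Real.log (Nat.card (G j))) atTop (𝓝 0) := by
    refine squeeze_zero' ?_ ?_ hkG
    · filter_upwards [hell.eventually_ge_atTop 1, hlκ.eventually_ge_atTop 1] with j h2 h3
      exact div_nonneg (by linarith) (by linarith)
    · filter_upwards [hell.eventually_ge_atTop 1, hk.eventually_ge_atTop 1] with j h2 h3
      refine div_le_div_of_nonneg_right ?_ (by linarith)
      refine Real.log_le_log (by linarith) ?_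
      exact div_le_self (Nat.cast_nonneg _) h2
  have h2 : Tendsto (fun j => Real.log (k j / Real.log (Nat.card (G j))) /
      Real.log (Nat.card (G j))) atTop (𝓝[>] 0) := by
    refine tendsto_nhdsWithin_iff.2 ⟨h1, ?_⟩
    filter_upwards [hell.eventually_ge_atTop 1, hlκ.eventually_ge_atTop 1] with j h2 h3
    exact Set.mem_Ioi.2 (div_pos (zero_lt_one.trans_le h3) (zero_lt_one.trans_le h2))
  refine h2.inv_tendsto_nhdsGT_zero.congr fun j => ?_
  simp only [Pi.inv_apply, inv_div, tEnt]

/-- The upper bound, for all groups and uniformly in the time. -/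
theorem upper
    (hn : Tendsto (fun j => Nat.card (G j)) atTop atTop)
    (hk : Tendsto (fun j => (k j : ℝ) / Real.log (Nat.card (G j))) atTop atTop)
    (hkG : Tendsto (fun j => Real.log (k j) / Real.log (Nat.card (G j))) atTop (𝓝 0))
    (ε δ δ' : ℝ) (hε : 0 < ε) (hε1 : ε < 1) (hδ : 0 < δ) (hδ' : 0 < δ') :
    ∀ᶠ j in atTop, ∀ t : ℝ, (1 + ε) * tEnt (Nat.card (G j)) (k j) ≤ t →
      1 - δ' ≤ prob (G j) (k j) fun Z => tvDist Z t ≤ δ := by
  have hx := tEnt_tendsto G k hn hk hkG
  have hell : Tendsto (fun j => Real.log (Nat.card (G j))) atTop atTop :=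
    Real.tendsto_log_atTop.comp (tendsto_natCast_atTop_atTop.comp hn)
  have hc0 : (0 : ℝ) < (1 + 3 * ε / 4) / (1 + ε) := by positivity
  have hc1 : (1 + 3 * ε / 4) / (1 + ε) < 1 := by
    rw [div_lt_one (by positivity)]; linarith
  obtain ⟨b, hb, htail⟩ := Pool.Agent.Y319.UB.tail _ hc0 hc1
  have hasy := Pool.Agent.Y813.UB.asy (fun j => Real.log (Nat.card (G j)))
    (fun j => (k j : ℝ) / Real.log (Nat.card (G j))) (ε / 2) (by linarith) (by linarith) hk hx
  have h1 : Tendsto (fun j => Real.exp (-(b * tEnt (Nat.card (G j)) (k j)))) atTop (𝓝 0) :=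
    Real.tendsto_exp_neg_atTop_nhds_zero.comp (hx.const_mul_atTop hb)
  have h2 := (Real.continuous_sqrt.tendsto 0).comp hasy
  rw [Real.sqrt_zero] at h2
  have h3 := h1.add (h2.const_mul (1 / 2))
  simp only [mul_zero, add_zero] at h3
  filter_upwards [h3.eventually_le_const (show (0 : ℝ) < δ * δ' by positivity),
    hx.eventually_ge_atTop (4 / ε), hell.eventually_ge_atTop 1, hk.eventually_ge_atTop 1]
    with j h4 h5 h6 h7 t ht
  have hN : (0 : ℝ) < Nat.card (G j) := by exact_mod_cast Nat.card_pos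
  set x := tEnt (Nat.card (G j)) (k j) with hxdef
  have hx0 : 0 < x := lt_of_lt_of_le (by positivity) h5
  have hεx : 4 ≤ ε * x := by
    rw [div_le_iff₀ hε] at h5; linarith
  have hxe : Real.log (Nat.card (G j)) / Real.log (k j / Real.log (Nat.card (G j))) = x := rfl
  have hk0 : 0 < k j := by
    rcases Nat.eq_zero_or_pos (k j) with h | h
    · rw [h, Nat.cast_zero, zero_div] at h7
      linarith
    · exact h
  have hL0 : Real.log (Nat.card (G j)) ≠ 0 := by linarith
  have hkL : (k j : ℝ) / Real.log (Nat.card (G j)) * Real.log (Nat.card (G j)) = k j :=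
    div_mul_cancel₀ _ hL0
  simp only [Function.comp_apply, hxe, hkL, Real.exp_log hN] at h4
  set n := ⌈(1 + ε / 2) * x⌉₊ with hndef
  have hn1 : 1 ≤ n := Nat.one_le_iff_ne_zero.2 (Nat.ceil_pos.2 (by positivity)).ne'
  have ht0 : 0 ≤ t := le_trans (by positivity) ht
  have hnt : (n : ℝ) ≤ (1 + 3 * ε / 4) / (1 + ε) * t := by
    have h8 : (n : ℝ) < (1 + ε / 2) * x + 1 := Nat.ceil_lt_add_one (by positivity)
    have h9 : (1 + 3 * ε / 4) / (1 + ε) * ((1 + ε) * x) = (1 + 3 * ε / 4) * x := by
      field_simp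
    have h10 := mul_le_mul_of_nonneg_left ht hc0.le
    rw [h9] at h10
    nlinarith
  have h11 := htail t n ht0 hnt
  have h12 : Real.exp (-(b * t)) ≤ Real.exp (-(b * x)) := by
    refine Real.exp_le_exp.2 (neg_le_neg (mul_le_mul_of_nonneg_left ?_ hb.le))
    nlinarith
  have hm := mean_le Pool.Agent.Y235.UB.sm Pool.Agent.Y239.UB.con Pool.Agent.Y484.UB.count
    (G j) n (k j) hk0 hn1 t ht0
  have hm2 : ∑ Z : Fin (k j) → G j, tvDist Z t ≤ (Fintype.card (G j) : ℝ) ^ k j *
      (δ * δ') := by
    refine hm.trans (mul_le_mul_of_nonneg_left ?_ (by positivity))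
    rw [← Nat.card_eq_fintype_card]
    linarith
  have h13 := prob_ge (G j) (k j) t hδ hm2
  have h14 : δ * δ' / δ = δ' := by field_simp
  rw [h14] at h13
  exact h13

end

end Pool.Agent.Y571.UB
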